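import Mathlib
import Pool.Agent.PackCover.Lower
import Pool.Agent.PCH.Grp
import Pool.Agent.PCP53.Sel
import Pool.Agent.PCX98.DenseTwo

set_option autoImplicit false

open PackCover PCX98

namespace Pool.Agent.Results.MP_d84bc5_an.EllOneSumHilbert

theorem sel (H : Type) [NormedAddCommGroup H] [InnerProductSpace ℝ H] : PCH.Selects H :=
  fun _ P τ h1 h2 h3 h4 h5 => PCP53.exists_q P τ h1 h2 h3 h4 h5

theorem lower (H : Type) [NormedAddCommGroup H] [InnerProductSpace ℝ H] [Nontrivial H]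
    (D : Set (WithLp 2 (L1 × H))) (ρ : ℝ) (h1 : TwoSep D) (h2 : RhoDense D ρ) :
    2 / √3 ≤ ρ := by
  obtain ⟨y, hy⟩ := exists_ne (0 : H)
  refine lower_bound D h1 ρ h2 (‖y‖⁻¹ • y) ?_
  rw [norm_smul, norm_inv, norm_norm]
  exact inv_mul_cancel₀ (norm_ne_zero_iff.2 hy)

theorem exact_value (H : Type) [NormedAddCommGroup H] [InnerProductSpace ℝ H] [Nontrivial H]
    (hY : ∃ t : ℕ → H, ∀ v : H, ∀ ε : ℝ, 0 < ε → ∃ n, ‖v - t n‖ ≤ ε) :
    gam (WithLp 2 (L1 × H)) = 2 / √3 ∧ gamStar (WithLp 2 (L1 × H)) = 2 / √3 := by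
  obtain ⟨D, h1, h2⟩ := PCH.upper_bound_all (sel H) hY
  constructor
  · refine le_antisymm ?_ ?_
    · refine le_of_forall_pos_le_add ?_
      intro ε hε
      exact csInf_le ⟨2 / √3, fun σ ⟨E, h3, h4⟩ => lower H E σ h3 h4⟩ ⟨D, h1, h2 ε hε⟩
    · refine le_csInf ⟨2 / √3 + 1, D, h1, h2 1 one_pos⟩ ?_
      rintro σ ⟨E, h3, h4⟩
      exact lower H E σ h3 h4
  · refine le_antisymm ?_ ?_
    · refine le_of_forall_pos_le_add ?_
      intro ε hε
      exact csInf_le ⟨2 / √3, fun σ ⟨E, h3, h4⟩ => lower H E σ h3 h4⟩ ⟨D, h1, h2 ε hε⟩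
    · refine le_csInf ⟨2 / √3 + 1, D, h1, h2 1 one_pos⟩ ?_
      rintro σ ⟨E, h3, h4⟩
      exact lower H E σ h3 h4

/-- Both constants of `X₂ = ℓ₁ ⊕₂ ℓ₂` are equal to `2/√3`, and so are both constants of
`ℓ₁ ⊕₂ H` for every separable real inner product space `H` (complete or not) of dimension at
least two. -/
theorem result :
    (gam (WithLp 2 (lp (fun _ : ℕ => ℝ) 1 × lp (fun _ : ℕ => ℝ) 2)) = 2 / √3 ∧
      gamStar (WithLp 2 (lp (fun _ : ℕ => ℝ) 1 × lp (fun _ : ℕ => ℝ) 2)) = 2 / √3) ∧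
    ∀ (H : Type) [NormedAddCommGroup H] [InnerProductSpace ℝ H]
      [TopologicalSpace.SeparableSpace H], (∃ a b : H, LinearIndependent ℝ ![a, b]) →
      gam (WithLp 2 (lp (fun _ : ℕ => ℝ) 1 × H)) = 2 / √3 ∧
      gamStar (WithLp 2 (lp (fun _ : ℕ => ℝ) 1 × H)) = 2 / √3 := by
  refine ⟨?_, ?_⟩
  · have : Nontrivial L2 := ⟨lp.single (E := fun _ : ℕ => ℝ) 2 0 1, 0, by
      intro h
      have h3 := norm_single_two 0 1
      rw [h] at h3
      simp at h3⟩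
    exact exact_value L2 exists_dense_two
  · intro H _ _ _ hab
    have : Nontrivial H := by
      obtain ⟨a, b, h⟩ := hab
      exact ⟨a, 0, h.ne_zero 0⟩
    refine exact_value H ⟨TopologicalSpace.denseSeq H, ?_⟩
    intro v ε hε
    obtain ⟨n, hn⟩ := (TopologicalSpace.denseRange_denseSeq H).exists_dist_lt v hε
    exact ⟨n, by rw [← dist_eq_norm]; exact hn.le⟩

end Pool.Agent.Results.MP_d84bc5_an.EllOneSumHilbert
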