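import Mathlib
import Pool.Agent.PackCover.Lower
import Pool.Agent.PackCover.Upper

set_option autoImplicit false

open PackCover

namespace Pool.Agent.Results.MP_d84bc5_an.EllOneSumReal

/-- The simultaneous packing and covering constant of `ℓ₁ ⊕₂ ℝ` and its lattice version are both
equal to `2/√3`. -/
theorem result : gam (WithLp 2 (lp (fun _ : ℕ => ℝ) 1 × ℝ)) = 2 / √3 ∧
    gamStar (WithLp 2 (lp (fun _ : ℕ => ℝ) 1 × ℝ)) = 2 / √3 := by
  have hlow : ∀ (D : Set (WithLp 2 (L1 × ℝ))) (ρ : ℝ), TwoSep D → RhoDense D ρ → 2 / √3 ≤ ρ :=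
    fun D ρ h1 h2 => lower_bound D h1 ρ h2 (1 : ℝ) (by simp)
  constructor
  · refine le_antisymm ?_ ?_
    · refine le_of_forall_pos_le_add ?_
      intro ε hε
      obtain ⟨D, h1, h2⟩ := upper_bound ε hε
      exact csInf_le ⟨2 / √3, fun ρ h => by
        obtain ⟨D, h3, h4⟩ := h
        exact hlow D ρ h3 h4⟩ ⟨D, h1, h2⟩
    · obtain ⟨D, h1, h2⟩ := upper_bound 1 one_pos
      refine le_csInf ⟨2 / √3 + 1, D, h1, h2⟩ ?_
      rintro ρ ⟨D, h3, h4⟩
      exact hlow D ρ h3 h4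
  · refine le_antisymm ?_ ?_
    · refine le_of_forall_pos_le_add ?_
      intro ε hε
      obtain ⟨D, h1, h2⟩ := upper_bound ε hε
      exact csInf_le ⟨2 / √3, fun ρ h => by
        obtain ⟨D, h3, h4⟩ := h
        exact hlow D ρ h3 h4⟩ ⟨D, h1, h2⟩
    · obtain ⟨D, h1, h2⟩ := upper_bound 1 one_pos
      refine le_csInf ⟨2 / √3 + 1, D, h1, h2⟩ ?_
      rintro ρ ⟨D, h3, h4⟩
      exact hlow D ρ h3 h4

end Pool.Agent.Results.MP_d84bc5_an.EllOneSumReal
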